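import Mathlib

open Finset Matrix

namespace Pool.Agent.Results.MP_7ad8d2_an.MinInv

/-- Maximum absolute row sum. -/
noncomputable def normInf {n : ℕ} (A : Matrix (Fin n) (Fin n) ℝ) : ℝ := ⨆ i, ∑ j, |A i j|

/-- The matrix `α I + m 1 1ᵀ`. -/
def S (n : ℕ) (α m : ℝ) : Matrix (Fin n) (Fin n) ℝ :=
  α • (1 : Matrix (Fin n) (Fin n) ℝ) + m • Matrix.of fun _ _ => (1 : ℝ)

/-- Diagonal dominance of row `i`. -/
def Dom {n : ℕ} (J : Matrix (Fin n) (Fin n) ℝ) (i : Fin n) : ℝ :=
  J i i - ∑ j ∈ univ.erase i, J i j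

/-- The class `C_n(m, δ)`. -/
def InC {n : ℕ} (m δ : ℝ) (J : Matrix (Fin n) (Fin n) ℝ) : Prop :=
  J.IsSymm ∧ (∀ i j, 0 < J i j) ∧ (∀ i j, i ≠ j → J i j ≤ m) ∧
    ∀ i, 0 ≤ Dom J i ∧ Dom J i ≤ δ

theorem mul_eq {n : ℕ} (J : Matrix (Fin n) (Fin n) ℝ) (x : Fin n → ℝ) (k : Fin n) :
    (J *ᵥ x) k = Dom J k * x k + ∑ l, (if l = k then 0 else J k l) * (x k + x l) := by
  rw [← Finset.add_sum_erase _ _ (mem_univ k), if_pos rfl, zero_mul, zero_add,
    Finset.sum_congr rfl (g := fun l => J k l * x k + J k l * x l) fun l hl => by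
      rw [if_neg (ne_of_mem_erase hl)]; ring, sum_add_distrib, ← sum_mul, Dom, mulVec, dotProduct,
    ← Finset.add_sum_erase _ _ (mem_univ k)]
  ring

theorem quad {n : ℕ} {m δ : ℝ} {J : Matrix (Fin n) (Fin n) ℝ} (h : InC m δ J) (u : Fin n → ℝ)
    (hu : ∑ k, u k * (J *ᵥ u) k = 0) (k l : Fin n) (hkl : l ≠ k) : u k + u l = 0 := by
  obtain ⟨hs, hp, -, hd⟩ := h
  set A : Fin n → Fin n → ℝ := fun k l => if l = k then 0 else J k l with hA
  have hAs : ∀ k l, A k l = A l k := fun k l => by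
    by_cases h : l = k
    · rw [h]
    · simp only [hA, if_neg h, if_neg (Ne.symm h)]
      exact hs.apply l k
  have hA0 : ∀ k l, 0 ≤ A k l := fun k l => by
    simp only [hA]; split_ifs
    · exact le_rfl
    · exact (hp k l).le
  have h1 : ∑ k, Dom J k * u k ^ 2 + ∑ k, ∑ l, A k l * (u k * (u k + u l)) = 0 := by
    rw [← hu, ← sum_add_distrib]
    refine sum_congr rfl fun k _ => ?_
    rw [mul_eq, mul_add, mul_sum]
    congr 1
    · ring
    · exact sum_congr rfl fun l _ => by simp only [hA]; ring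
  have h2 : ∑ k, ∑ l, A k l * (u l * (u k + u l)) = ∑ k, ∑ l, A k l * (u k * (u k + u l)) := by
    rw [sum_comm]
    exact sum_congr rfl fun k _ => sum_congr rfl fun l _ => by rw [hAs l k]; ring
  have h3 : ∑ k, ∑ l, A k l * (u k + u l) ^ 2 = ∑ k, ∑ l, A k l * (u l * (u k + u l)) +
      ∑ k, ∑ l, A k l * (u k * (u k + u l)) := by
    rw [← sum_add_distrib]
    refine sum_congr rfl fun k _ => ?_
    rw [← sum_add_distrib]
    exact sum_congr rfl fun l _ => by ring
  have h4 : 0 ≤ ∑ k, Dom J k * u k ^ 2 :=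
    sum_nonneg fun k _ => mul_nonneg (hd k).1 (sq_nonneg _)
  have h5 : ∀ k l, 0 ≤ A k l * (u k + u l) ^ 2 := fun k l => mul_nonneg (hA0 k l) (sq_nonneg _)
  have h6 : A k l * (u k + u l) ^ 2 ≤ ∑ k, ∑ l, A k l * (u k + u l) ^ 2 :=
    (single_le_sum (f := fun l => A k l * (u k + u l) ^ 2) (fun l _ => h5 k l) (mem_univ l)).trans
      (single_le_sum (f := fun k => ∑ l, A k l * (u k + u l) ^ 2)
        (fun k _ => sum_nonneg fun l _ => h5 k l) (mem_univ k))
  have h7 : A k l * (u k + u l) ^ 2 = 0 := le_antisymm (by linarith) (h5 k l)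
  simp only [hA, if_neg hkl] at h7
  exact pow_eq_zero_iff two_ne_zero |>.1 ((mul_eq_zero.1 h7).resolve_left (hp k l).ne')

theorem unit {n : ℕ} (hn : 3 ≤ n) {m δ : ℝ} {J : Matrix (Fin n) (Fin n) ℝ} (h : InC m δ J) :
    IsUnit J.det := by
  rw [isUnit_iff_ne_zero]
  intro hdet
  obtain ⟨u, hu0, hu⟩ := Matrix.exists_mulVec_eq_zero_iff.2 hdet
  have hq := quad h u (by simp [hu])
  refine hu0 (funext fun k => ?_)
  obtain ⟨l, hl, l', hl', hll⟩ := one_lt_card.1 (show 1 < (univ.erase k).card by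
    rw [card_erase_of_mem (mem_univ k), card_univ, Fintype.card_fin]; omega)
  have h1 := hq k l (ne_of_mem_erase hl)
  have h2 := hq k l' (ne_of_mem_erase hl')
  have h3 := hq l' l hll
  change u k = 0
  linarith

theorem diag {n : ℕ} (hn : 3 ≤ n) {m δ : ℝ} {J : Matrix (Fin n) (Fin n) ℝ} (h : InC m δ J)
    (i : Fin n) : J⁻¹ i i ≠ 0 := fun h0 => by
  have h1 : J *ᵥ (fun k => J⁻¹ k i) = Pi.single i 1 := by
    ext k
    have := congrFun (congrFun (Matrix.mul_nonsing_inv J (unit hn h)) k) i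
    rw [Matrix.mul_apply, Matrix.one_apply] at this
    rw [mulVec, dotProduct, this, Pi.single_apply]
  have hq := quad h (fun k => J⁻¹ k i) (by rw [h1]; simp [Pi.single_apply, h0])
  have h2 : (fun k => J⁻¹ k i) = 0 := funext fun k => by
    by_cases hk : k = i
    · rw [hk]; exact h0
    · have := hq i k hk
      change J⁻¹ k i = 0
      linarith
  rw [h2, mulVec_zero] at h1
  simpa using congrFun h1 i

theorem key {n : ℕ} (hn : 3 ≤ n) {m δ α : ℝ} (hm : 0 < m) (hδ : 0 ≤ δ)
    (hα : α = m * (n - 2) + δ) {J : Matrix (Fin n) (Fin n) ℝ} (h : InC m δ J) (i : Fin n) :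
    ∃ g : ℝ, 0 ≤ g ∧ α + 2 * m * (n - 1) + g ≤ normInf J⁻¹ * (α * (α + m * n)) ∧
      (g = 0 → ∀ k, J i k = S n α m i k) := by
  have hu := unit hn h
  have hdg := diag hn h i
  obtain ⟨hs, hp, hle, hd⟩ := h
  have hN : (3 : ℝ) ≤ n := by exact_mod_cast hn
  have hmα : m ≤ α := by nlinarith
  have hα0 : 0 < α := by linarith
  set Y := α * (α + m * n) with hY
  set p := α + 2 * m * (n - 1) with hp'
  set r := 2 * m * (n - 2) with hr
  have hr0 : 0 < r := by rw [hr]; nlinarith
  have hp0 : 0 < p := by rw [hp']; nlinarith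
  obtain ⟨η, hη⟩ : ∃ η : Fin n → ℝ, ∀ k, η k * (α + J i k) = r * (m - J i k) :=
    ⟨fun k => r * (m - J i k) / (α + J i k), fun k =>
      div_mul_cancel₀ _ (by linarith [hp i k])⟩
  have hη0 : ∀ k, k ≠ i → 0 ≤ η k := fun k hk => by
    have h1 := hη k
    have h2 := hle i k hk.symm
    by_contra hc
    push Not at hc
    nlinarith [hp i k]
  have hη1 : ∀ k, k ≠ i → η k ≤ 2 * m := fun k hk => by
    have h1 := hη k
    have h2 : r * m ≤ 2 * m * α := by rw [hr, hα]; nlinarith
    by_contra hc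
    push Not at hc
    nlinarith [hp i k]
  have hη2 : ∀ k, (m * r - J i k * (r + η k)) * (α + J i k) = r * α * (m - J i k) := fun k => by
    linear_combination (-J i k) * hη k
  have hη3 : ∀ k, k ≠ i → J i k * (r + η k) ≤ m * r := fun k hk => by
    have h1 := hη2 k
    have h2 := hle i k hk.symm
    have h3 : 0 ≤ r * α * (m - J i k) := mul_nonneg (by positivity) (by linarith)
    by_contra hc
    push Not at hc
    nlinarith [hp i k]
  obtain ⟨x, hxi, hx⟩ : ∃ x : Fin n → ℝ, x i = p ∧ ∀ k, k ≠ i → x k = η k - (α + 2 * m) :=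
    ⟨fun k => if k = i then p else η k - (α + 2 * m), if_pos rfl, fun k hk => if_neg hk⟩
  have hpx : ∀ k, k ≠ i → p + x k = r + η k := fun k hk => by rw [hx k hk, hp', hr]; ring
  have hb : ∀ l, (if l = i then 0 else J i l) * (x i + x l) ≤ m * r - if l = i then m * r else 0 :=
    fun l => by
      split_ifs with hl
      · simp
      · rw [hxi, hpx l hl, sub_zero]; exact hη3 l hl
  have hsum : ∑ l : Fin n, (m * r - if l = i then m * r else 0) = Y - δ * p := by
    simp only [sum_sub_distrib, sum_const, card_univ, Fintype.card_fin, nsmul_eq_mul, sum_ite_eq',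
      mem_univ, if_true]
    rw [hY, hp', hr, hα]; ring
  have hyi0 : 0 ≤ (J *ᵥ x) i := by
    rw [mul_eq]
    refine add_nonneg (mul_nonneg (hd i).1 (by rw [hxi]; exact hp0.le)) (sum_nonneg fun l _ => ?_)
    split_ifs with hl
    · simp
    · rw [hxi, hpx l hl]
      exact mul_nonneg (hp i l).le (by linarith [hη0 l hl])
  have hyi1 : (J *ᵥ x) i ≤ Y := by
    rw [mul_eq]
    have h1 := sum_le_sum (s := univ) fun l _ => hb l
    have h2 := mul_le_mul_of_nonneg_right (hd i).2 hp0.le
    rw [hxi] at h1 ⊢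
    linarith
  have hyk : ∀ k, |(J *ᵥ x) k| ≤ Y := fun k => by
    by_cases hk : k = i
    · rw [hk, abs_of_nonneg hyi0]; exact hyi1
    have hJ : J k i = J i k := hs.apply i k
    have hxk : x k ≤ 0 := by rw [hx k hk]; linarith [hη1 k hk]
    rw [mul_eq, abs_le]
    constructor
    · have h1 : ∀ l, m * (x k - (α + 2 * m)) + ((if l = i then J i k * (r + η k) -
          m * (x k - (α + 2 * m)) else 0) - if l = k then m * (x k - (α + 2 * m)) else 0) ≤
          (if l = k then 0 else J k l) * (x k + x l) := fun l => by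
        by_cases hl : l = k
        · rw [if_pos hl, if_pos hl, if_neg (hl ▸ hk)]; simp
        rw [if_neg hl, if_neg hl]
        by_cases hl' : l = i
        · rw [if_pos hl', hl', hJ, hxi, add_comm (x k) p, hpx k hk]; linarith
        · rw [if_neg hl', hx l hl']
          have h2 := hle k l (Ne.symm hl)
          have h3 := hη0 l hl'
          have h4 := hp k l
          nlinarith [mul_nonneg h4.le h3, mul_nonneg (sub_nonneg.2 h2)
            (show 0 ≤ α + 2 * m - x k by linarith)]
      have h2 := sum_le_sum (s := univ) fun l _ => h1 l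
      simp only [sum_add_distrib, sum_sub_distrib, sum_const, card_univ, Fintype.card_fin,
        nsmul_eq_mul, sum_ite_eq', mem_univ, if_true] at h2
      have h3 : δ * x k ≤ Dom J k * x k := mul_le_mul_of_nonpos_right (hd k).2 hxk
      have h4 : δ * x k + (n * (m * (x k - (α + 2 * m))) + (J i k * (r + η k) -
          m * (x k - (α + 2 * m)) - m * (x k - (α + 2 * m)))) = -Y := by
        have h5 := hη k
        rw [hx k hk, hY]
        have h6 : δ = α - m * (n - 2) := by linarith
        rw [h6]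
        linear_combination h5 + m * hr
      linarith
    · have h1 : ∀ l, (if l = k then 0 else J k l) * (x k + x l) ≤
          if l = i then m * r else 0 := fun l => by
        by_cases hl : l = k
        · rw [if_pos hl, if_neg (hl ▸ hk)]; simp
        rw [if_neg hl]
        by_cases hl' : l = i
        · rw [if_pos hl', hl', hJ, hxi, add_comm (x k) p, hpx k hk]; exact hη3 k hk
        · rw [if_neg hl', hx l hl']
          exact mul_nonpos_of_nonneg_of_nonpos (hp k l).le (by linarith [hη1 l hl'])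
      have h2 := sum_le_sum (s := univ) fun l _ => h1 l
      simp only [sum_ite_eq', mem_univ, if_true] at h2
      have h3 : Dom J k * x k ≤ 0 := mul_nonpos_of_nonneg_of_nonpos (hd k).1 hxk
      have h4 : m * r ≤ Y := by
        rw [hY, hr]
        have h5 : m * (n - 2) ≤ α := by linarith
        have h6 : 2 * m ≤ α + m * n := by nlinarith
        nlinarith [mul_le_mul h5 h6 (by positivity) hα0.le]
      linarith
  have hrow : ∑ j, |J⁻¹ i j| ≤ normInf J⁻¹ :=
    le_ciSup (f := fun i => ∑ j, |J⁻¹ i j|) (Set.finite_range _).bddAbove i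
  have hY0 : 0 ≤ Y := (abs_nonneg _).trans (hyk i)
  refine ⟨|J⁻¹ i i| * (Y - (J *ᵥ x) i), mul_nonneg (abs_nonneg _) (by linarith), ?_, fun hg => ?_⟩
  · have h1 : p = ∑ k, J⁻¹ i k * (J *ᵥ x) k := by
      have := congrFun (show J⁻¹ *ᵥ (J *ᵥ x) = x by
        rw [mulVec_mulVec, Matrix.nonsing_inv_mul J hu, one_mulVec]) i
      rw [← hxi, ← this, mulVec, dotProduct]
    have h2 : ∀ k, J⁻¹ i k * (J *ᵥ x) k ≤ |J⁻¹ i k| * Y -
        if k = i then |J⁻¹ i i| * (Y - (J *ᵥ x) i) else 0 := fun k => by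
      split_ifs with hk
      · rw [hk]
        nlinarith [mul_le_mul_of_nonneg_right (le_abs_self (J⁻¹ i i)) hyi0]
      · rw [sub_zero]
        exact (le_abs_self _).trans ((abs_mul _ _).trans_le
          (mul_le_mul_of_nonneg_left (hyk k) (abs_nonneg _)))
    have h3 := sum_le_sum (s := univ) fun k _ => h2 k
    simp only [sum_sub_distrib, sum_ite_eq', mem_univ, if_true, ← sum_mul] at h3
    nlinarith [mul_le_mul_of_nonneg_right hrow hY0]
  · have h1 : (J *ᵥ x) i = Y := by
      linarith [(mul_eq_zero.1 hg).resolve_left (abs_ne_zero.2 hdg)]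
    rw [mul_eq] at h1
    have h2 := sum_le_sum (s := univ) fun l _ => hb l
    have h3 := mul_le_mul_of_nonneg_right (hd i).2 hp0.le
    have h4 : Dom J i * x i = δ * p := by rw [hxi] at h1 h2 ⊢; linarith
    have h5 := (sum_eq_sum_iff_of_le (s := univ) fun l _ => hb l).1 (by linarith)
    have h6 : ∀ k, k ≠ i → J i k = m := fun k hk => by
      have h7 := h5 k (mem_univ k)
      rw [if_neg hk, if_neg hk, hxi, hpx k hk, sub_zero] at h7
      have h8 := hη2 k
      rw [h7, sub_self, zero_mul] at h8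
      linarith [(mul_eq_zero.1 h8.symm).resolve_left (by positivity)]
    intro k
    by_cases hk : k = i
    · rw [hxi] at h4
      have h7 := mul_right_cancel₀ hp0.ne' h4
      rw [Dom, sum_congr rfl fun k hk => h6 k (ne_of_mem_erase hk), sum_const,
        card_erase_of_mem (mem_univ i), card_univ, Fintype.card_fin, nsmul_eq_mul,
        Nat.cast_sub (by omega)] at h7
      simp only [hk, S, Matrix.add_apply, Matrix.smul_apply, one_apply_eq, of_apply, smul_eq_mul]
      push_cast at h7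
      linarith
    · simp [S, h6 k hk, one_apply_ne (Ne.symm hk)]

theorem normS {n : ℕ} (hn : 3 ≤ n) {m α : ℝ} (hm : 0 < m) (hα : 0 < α) :
    normInf (S n α m)⁻¹ = (α + 2 * m * (n - 1)) / (α * (α + m * n)) := by
  have hN : (3 : ℝ) ≤ n := by exact_mod_cast hn
  have h0 : 0 < α + m * n := by positivity
  have h1 : (S n α m)⁻¹ = S n α⁻¹ (-(m / (α * (α + m * n)))) := by
    refine Matrix.inv_eq_right_inv ?_
    ext i k
    simp only [S, Matrix.mul_apply, Matrix.add_apply, Matrix.smul_apply, one_apply, of_apply,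
      smul_eq_mul, mul_ite, ite_mul, mul_one, mul_zero, zero_mul, add_mul, mul_add,
      sum_add_distrib, sum_ite_eq, sum_ite_eq', mem_univ, if_true, sum_const, card_univ,
      Fintype.card_fin, nsmul_eq_mul]
    split_ifs <;> field_simp <;> ring
  haveI : Nonempty (Fin n) := ⟨⟨0, by omega⟩⟩
  rw [h1, normInf, ← ciSup_const (ι := Fin n) (a := (α + 2 * m * (n - 1)) / (α * (α + m * n)))]
  congr 1
  ext i
  have h2 : 0 < m / (α * (α + m * n)) := by positivity
  have h3 : ∀ j, |S n α⁻¹ (-(m / (α * (α + m * n)))) i j| = m / (α * (α + m * n)) +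
      if j = i then α⁻¹ - 2 * (m / (α * (α + m * n))) else 0 := fun j => by
    split_ifs with hj
    · have : 0 ≤ α⁻¹ - m / (α * (α + m * n)) := by
        rw [sub_nonneg, div_le_iff₀ (by positivity), ← mul_assoc, inv_mul_cancel₀ hα.ne']
        nlinarith
      simp only [hj, S, Matrix.add_apply, Matrix.smul_apply, one_apply_eq, of_apply, smul_eq_mul]
      rw [abs_of_nonneg (by linarith)]
      ring
    · simp [S, one_apply_ne (Ne.symm hj), abs_of_pos h2]
  simp only [h3, sum_add_distrib, sum_const, card_univ, Fintype.card_fin, nsmul_eq_mul,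
    sum_ite_eq', mem_univ, if_true]
  field_simp
  ring

theorem result (n : ℕ) (hn : 3 ≤ n) (m δ α : ℝ) (hm : 0 < m) (hδ : 0 ≤ δ)
    (hα : α = m * (n - 2) + δ) (J : Matrix (Fin n) (Fin n) ℝ) (h : InC m δ J) :
    IsUnit J.det ∧ normInf (S n α m)⁻¹ = (α + 2 * m * (n - 1)) / (α * (α + m * n)) ∧
      normInf (S n α m)⁻¹ ≤ normInf J⁻¹ ∧
      (normInf J⁻¹ = normInf (S n α m)⁻¹ ↔ J = S n α m) := by
  have hN : (3 : ℝ) ≤ n := by exact_mod_cast hn
  have hα0 : 0 < α := by nlinarith
  have hY : 0 < α * (α + m * n) := by positivity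
  refine ⟨unit hn h, normS hn hm hα0, ?_, fun he => ?_, fun he => by rw [he]⟩
  · obtain ⟨g, hg, h1, -⟩ := key hn hm hδ hα h ⟨0, by omega⟩
    rw [normS hn hm hα0, div_le_iff₀ hY]
    linarith
  · ext i k
    obtain ⟨g, hg, h1, h2⟩ := key hn hm hδ hα h i
    rw [he, normS hn hm hα0, div_mul_cancel₀ _ hY.ne'] at h1
    exact h2 (by linarith) k

end Pool.Agent.Results.MP_7ad8d2_an.MinInv
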